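import Pool.Agent.E8helper11.GS.Stm

/-! # Project GS: assembly -/

set_option autoImplicit false

open Filter Topology
open scoped Classical

namespace Pool.Agent.E8helper11.GS

open N0ef6d136

lemma Ms_mono (m : ℕ → ℕ) : Monotone (Ms m) := by
  intro a b hab
  unfold Ms
  exact Finset.sum_le_sum_of_subset (Finset.range_mono hab)

theorem t_FIN (hPR : S_PR) (hHC : S_HC) (hBL : S_BL) (hSEL : S_SEL) (hENUM : S_ENUM)
    (hSUMM : S_SUMM) (hPROD : S_PROD) (hSIEVE : S_SIEVE) (hCNT : S_CNT) (hREG : S_REG)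
    (hTUP : S_TUP) (hTLOW : S_TLOW) (hBIG : S_BIG) (hLAM : S_LAM) (hHITS : S_HITS)
    (hGAP : S_GAP) (hGROW : S_GROW) : ∀ f : ℕ → ℝ, Tendsto f atTop atTop →
    ∃ u : ℕ → ℕ, IsGood u ∧ (∀ i, (u i).Prime) ∧
      ∀ᶠ n : ℕ in atTop, (u n : ℝ) ≤ (n : ℝ) ^ (f n) := by
  intro f hf
  obtain ⟨m, h2m, hSub, hLo, hG⟩ := hGROW hPR f hf
  obtain ⟨B, hB1, hB2, hPot⟩ := hSEL hBL hHC m h2m
  obtain ⟨u, hmono, huB, hBu, hPos⟩ := hENUM m B hB1 hB2 hLo
  have hp : ∀ i, (u i).Prime := by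
    intro i
    obtain ⟨k, hk⟩ := huB i
    have := hB1 k hk
    unfold Cb at this
    exact (Finset.mem_filter.1 this).2
  have h2 : ∀ i, 2 ≤ u i := fun i => (hp i).two_le
  have hcop : ∀ i j, i ≠ j → Nat.Coprime (u i) (u j) := fun i j hij =>
    (Nat.coprime_primes (hp i) (hp j)).2 (hmono.injective.ne hij)
  have hsum := hSUMM m u hmono hPos hSub h2
  have hT := hTLOW m u hmono h2 hPos hLo
  have hBg := hBIG m u hmono h2 hPos hSub hLo
  have hH := hHITS hCNT hREG m u B hmono h2 hB1 huB hPos hSub hLo hPot (hLAM hPR m hSub hLo) hT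
  refine ⟨u, hGAP hSIEVE hPROD hTUP u hmono h2 hcop hsum hT hBg hH, hp, ?_⟩
  obtain ⟨k0, hk0⟩ := eventually_atTop.1 hG
  filter_upwards [eventually_ge_atTop (Ms m k0)] with n hn
  have hex : ∃ K, n < Ms m K := ⟨u n, (hPos n (u n)).1 (Nat.lt_pow_self (by norm_num))⟩
  have hK := Nat.find_spec hex
  have hKk : k0 < Nat.find hex := by
    by_contra hcon
    exact absurd (lt_of_lt_of_le hK (Ms_mono m (not_lt.1 hcon))) (not_lt.2 hn)
  obtain ⟨k, hk⟩ : ∃ k, Nat.find hex = k + 1 := ⟨Nat.find hex - 1, by omega⟩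
  have hmin : ¬ n < Ms m k := Nat.find_min hex (by omega)
  rw [hk] at hK
  have h1 : u n < 4 ^ (k + 1) := (hPos n (k + 1)).2 hK
  have h3 := hk0 k (by omega) n (not_lt.1 hmin)
  have h4 : (u n : ℝ) ≤ (4 : ℝ) ^ (k + 1) := by exact_mod_cast h1.le
  exact h4.trans h3

end Pool.Agent.E8helper11.GS
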