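import Pool.Agent.E8helper11.GS.Stm2
import Pool.Agent.E8helper11.GS.Fin

/-! # Project GS: assembly of the second part -/

set_option autoImplicit false

open Filter Topology
open scoped Classical

namespace Pool.Agent.E8helper11.GS

open N0ef6d136

theorem t_FIN2 (hPR : S_PR) (hHC : S_HC) (hBL : S_BL) (hSEL : S_SEL) (hENUM : S_ENUM)
    (hSUMM : S_SUMMd) (hPROD : S_PROD) (hSIEVE : S_SIEVE) (hCNT : S_CNT) (hREG : S_REG)
    (hTUP : S_TUP) (hTLOW : S_TLOW) (hBIG : S_BIGd) (hLAM : S_LAMd) (hHITS : S_HITSd)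
    (hGAP : S_GAPd) (hGROW : S_GROWd) : ∀ ε : ℝ, 0 < ε →
    ∃ (N : ℕ) (u : ℕ → ℕ), StrictMono u ∧ (∀ i, (u i).Prime) ∧
      (∀ i j, i ≠ j → Nat.Coprime (u i) (u j)) ∧ Summable (fun n => 1 / (u n : ℝ)) ∧ Gap ε u ∧
      ∀ᶠ n : ℕ in atTop, (u n : ℝ) ≤ (n : ℝ) ^ N := by
  intro ε hε
  obtain ⟨δ, hδ0, hδ1, hδ2⟩ : ∃ δ : ℝ, 0 < δ ∧ δ ≤ 1 / 100 ∧ 20 * δ < ε := by
    refine ⟨min (1 / 100) (ε / 40), by positivity, min_le_left _ _, ?_⟩
    have := min_le_right (1 / 100 : ℝ) (ε / 40)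
    linarith
  obtain ⟨m, N, h2m, hSub, hLo, hG⟩ := hGROW hPR δ hδ0 hδ1
  obtain ⟨B, hB1, hB2, hPot⟩ := hSEL hBL hHC m h2m
  obtain ⟨u, hmono, huB, hBu, hPos⟩ := hENUM m B hB1 hB2 hLo
  have hp : ∀ i, (u i).Prime := by
    intro i
    obtain ⟨k, hk⟩ := huB i
    have := hB1 k hk
    unfold Cb at this
    exact (Finset.mem_filter.1 this).2
  have h2 : ∀ i, 2 ≤ u i := fun i => (hp i).two_le
  have hcop : ∀ i j, i ≠ j → Nat.Coprime (u i) (u j) := fun i j hij =>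
    (Nat.coprime_primes (hp i) (hp j)).2 (hmono.injective.ne hij)
  have hsum := hSUMM m u δ (by linarith) hmono hPos hSub h2
  have hT := hTLOW m u hmono h2 hPos hLo
  have hBg := hBIG m u δ hδ0 hδ1 hmono h2 hPos hSub hLo
  have hH := hHITS hCNT hREG m u B δ hδ0 hδ1 hmono h2 hB1 huB hPos hLo hPot
    (hLAM hPR m δ hδ0 hδ1 hSub hLo) hT
  have hgap := hGAP hSIEVE hPROD hTUP u ε (20 * δ) (by linarith) hδ2 hmono h2 hcop hsum hT hBg hH
  refine ⟨N, u, hmono, hp, hcop, hsum, hgap, ?_⟩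
  obtain ⟨k0, hk0⟩ := eventually_atTop.1 hG
  filter_upwards [eventually_ge_atTop (Ms m k0)] with n hn
  have hex : ∃ K, n < Ms m K := ⟨u n, (hPos n (u n)).1 (Nat.lt_pow_self (by norm_num))⟩
  have hK := Nat.find_spec hex
  have hKk : k0 < Nat.find hex := by
    by_contra hcon
    exact absurd (lt_of_lt_of_le hK (Ms_mono m (not_lt.1 hcon))) (not_lt.2 hn)
  obtain ⟨k, hk⟩ : ∃ k, Nat.find hex = k + 1 := ⟨Nat.find hex - 1, by omega⟩
  have hmin : ¬ n < Ms m k := Nat.find_min hex (by omega)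
  rw [hk] at hK
  have h1 : u n < 4 ^ (k + 1) := (hPos n (k + 1)).2 hK
  have h3 := hk0 k (by omega) n (not_lt.1 hmin)
  have h4 : (u n : ℝ) ≤ (4 : ℝ) ^ (k + 1) := by exact_mod_cast h1.le
  exact h4.trans h3

end Pool.Agent.E8helper11.GS
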