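import Pool.Agent.E8helper11.GS.Fin2
import Pool.Agent.E8helper12.GS.BIGd
import Pool.Agent.E8helper52.GS.LAMd
import Pool.Agent.E8helper54.GS.GROWd

/-! # Project GS: explicit exponents in the second part -/

set_option autoImplicit false

open Filter Topology
open scoped Classical

namespace Pool.Agent.E8helper11.GS

open N0ef6d136
open Pool.Agent.E8helper38.GS (polyexp)
open Pool.Agent.E8helper54.GS (m1 m1_le)
open Pool.Agent.E8helper94.GS (ev_pow)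

theorem big8 (m u : ℕ → ℕ) (δ : ℝ) (hδ1 : δ ≤ 1 / 8)
    (h2 : ∀ i, 2 ≤ u i) (hP : Pos m u) (hS : Subd δ m) : HB u := by
  have hS' : ∀ᶠ k : ℕ in atTop, (m k : ℝ) ≤ (4 : ℝ) ^ ((1 / 8 : ℝ) * k) := by
    filter_upwards [hS] with k hk
    refine hk.trans (Real.rpow_le_rpow_of_exponent_le (by norm_num) ?_)
    exact mul_le_mul_of_nonneg_right (by linarith) (Nat.cast_nonneg k)
  obtain ⟨k0, hk0⟩ := eventually_atTop.1 (Pool.Agent.E8helper12.GS.growth hS')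
  refine eventually_atTop.2 ⟨(Ms m k0) ^ 2, fun j hj l hl => ?_⟩
  have hul := h2 l
  have a1 : 4 ^ Nat.log 4 (u l) ≤ u l := Nat.pow_log_le_self 4 (by omega)
  have a2 : u l < 4 ^ (Nat.log 4 (u l) + 1) := Nat.lt_pow_succ_log_self (by norm_num) _
  have a3 := (hP l _).1 a2
  rcases Nat.lt_or_ge (Nat.log 4 (u l)) k0 with h | h
  · exfalso
    have h3 : l < Ms m k0 := lt_of_lt_of_le a3 (Ms_mono m h)
    have h4 : l ^ 2 < Ms m k0 ^ 2 := Nat.pow_lt_pow_left h3 (by norm_num)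
    omega
  · have h3 := hk0 _ h
    have h4 : l ^ 4 < Ms m (Nat.log 4 (u l) + 1) ^ 4 := Nat.pow_lt_pow_left a3 (by norm_num)
    have h5 : j ^ 2 ≤ (l ^ 2) ^ 2 := Nat.pow_le_pow_left hl 2
    calc j ^ 2 ≤ (l ^ 2) ^ 2 := h5
      _ = l ^ 4 := by ring
      _ < Ms m (Nat.log 4 (u l) + 1) ^ 4 := h4
      _ ≤ 4 ^ Nat.log 4 (u l) := h3
      _ ≤ u l := a1

theorem lam7 (hPR : S_PR) (m : ℕ → ℕ) (δ0 θ : ℝ) (hδ0 : 0 < δ0) (hθ : θ < 1 - 7 * δ0)
    (hm : Subd δ0 m) (hlo : Lo m) :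
    ∀ᶠ k : ℕ in atTop, (4 : ℝ) ^ (θ * ((k : ℝ) + 1)) ≤ 1 + lam m k := by
  obtain ⟨δ, hδe⟩ : ∃ δ, δ = 1 - θ := ⟨_, rfl⟩
  obtain rfl : θ = 1 - δ := by linarith
  obtain ⟨k1, hk1⟩ := hPR
  obtain ⟨η, hη⟩ : ∃ η, η = (δ0 + δ / 7) / 2 := ⟨_, rfl⟩
  have hη0 : 0 < η := by rw [hη]; linarith
  have hη1 : δ0 < η := by rw [hη]; linarith
  filter_upwards [Pool.Agent.E8helper52.GS.Ms_led hm hδ0 hη1, hlo, eventually_ge_atTop k1,
    eventually_ge_atTop 1,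
    polyexp (16 * (4 : ℝ) ^ (1 - δ)) 3 (show 0 < δ - 7 * η by rw [hη]; linarith)] with k h1 h2 h3 h4 h5
  have hmk : 1 ≤ m k := le_trans (Nat.one_le_pow _ _ h4) h2
  have hmM : m k ≤ Ms m (k + 1) := by
    unfold Ms
    exact Finset.single_le_sum (f := m) (fun i _ => Nat.zero_le _)
      (Finset.mem_range.2 (Nat.lt_succ_self k))
  have hmk' : (1 : ℝ) ≤ m k := by exact_mod_cast hmk
  have hmM' : (m k : ℝ) ≤ Ms m (k + 1) := by exact_mod_cast hmM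
  have hM0 : (0 : ℝ) < Ms m (k + 1) := by linarith
  have hPRk := hk1 k h3
  have hD : (0 : ℝ) < 8 * (Ms m (k + 1) : ℝ) ^ 6 * (m k : ℝ) * ((k : ℝ) + 1) ^ 2 := by positivity
  have key : (4 : ℝ) ^ ((1 - δ) * ((k : ℝ) + 1)) ≤ lam m k := by
    unfold lam
    rw [le_div_iff₀ hD]
    -- the denominator
    have e1 : 8 * (Ms m (k + 1) : ℝ) ^ 6 * (m k : ℝ) * ((k : ℝ) + 1) ^ 2 ≤
        8 * ((4 : ℝ) ^ (η * k)) ^ 6 * (4 : ℝ) ^ (η * k) * ((k : ℝ) + 1) ^ 2 := by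
      have h6 : (m k : ℝ) ≤ (4 : ℝ) ^ (η * k) := hmM'.trans h1
      gcongr
    have e2 : ((4 : ℝ) ^ (η * k)) ^ 6 * (4 : ℝ) ^ (η * k) = (4 : ℝ) ^ (7 * η * k) := by
      rw [← pow_succ, ← Real.rpow_natCast, ← Real.rpow_mul (by norm_num)]
      congr 1
      push_cast
      ring
    have e3 : (4 : ℝ) ^ ((1 - δ) * ((k : ℝ) + 1)) = (4 : ℝ) ^ (1 - δ) * (4 : ℝ) ^ ((1 - δ) * k) := by
      rw [← Real.rpow_add (by norm_num)]
      congr 1
      ring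
    have e4 : (4 : ℝ) ^ ((1 - δ) * k) * (4 : ℝ) ^ (7 * η * k) * (4 : ℝ) ^ ((δ - 7 * η) * k) =
        (4 : ℝ) ^ k := by
      rw [← Real.rpow_add (by norm_num), ← Real.rpow_add (by norm_num), ← Real.rpow_natCast]
      congr 1
      ring
    have hk0 : (0 : ℝ) < (k : ℝ) + 1 := by positivity
    have e5 : 2 * ((k : ℝ) + 1) * ((4 : ℝ) ^ ((1 - δ) * ((k : ℝ) + 1)) *
        (8 * (Ms m (k + 1) : ℝ) ^ 6 * (m k : ℝ) * ((k : ℝ) + 1) ^ 2)) ≤ (4 : ℝ) ^ k := by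
      calc 2 * ((k : ℝ) + 1) * ((4 : ℝ) ^ ((1 - δ) * ((k : ℝ) + 1)) *
            (8 * (Ms m (k + 1) : ℝ) ^ 6 * (m k : ℝ) * ((k : ℝ) + 1) ^ 2)) ≤
          2 * ((k : ℝ) + 1) * ((4 : ℝ) ^ ((1 - δ) * ((k : ℝ) + 1)) *
            (8 * ((4 : ℝ) ^ (η * k)) ^ 6 * (4 : ℝ) ^ (η * k) * ((k : ℝ) + 1) ^ 2)) := by
            gcongr
        _ = (16 * (4 : ℝ) ^ (1 - δ) * ((k : ℝ) + 1) ^ 3) *
            ((4 : ℝ) ^ ((1 - δ) * k) * (((4 : ℝ) ^ (η * k)) ^ 6 * (4 : ℝ) ^ (η * k))) := by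
            rw [e3]; ring
        _ ≤ (4 : ℝ) ^ ((δ - 7 * η) * k) *
            ((4 : ℝ) ^ ((1 - δ) * k) * (((4 : ℝ) ^ (η * k)) ^ 6 * (4 : ℝ) ^ (η * k))) :=
            mul_le_mul_of_nonneg_right h5 (by positivity)
        _ = (4 : ℝ) ^ k := by rw [e2, ← e4]; ring
    have e6 := e5.trans hPRk
    exact le_of_mul_le_mul_left e6 (by positivity)
  linarith

theorem ev_exp (a b c : ℝ) (hb : 0 < b) (hab : a < b) :
    ∀ᶠ k : ℕ in atTop, (4 : ℝ) ^ (a * k) + c ≤ (4 : ℝ) ^ (b * k) := by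
  have h1 : Tendsto (fun k : ℕ => (4 : ℝ) ^ (b * k)) atTop atTop := by
    have hr : 1 < (4 : ℝ) ^ b := Real.one_lt_rpow (by norm_num) hb
    refine (tendsto_pow_atTop_atTop_of_one_lt hr).congr fun k => ?_
    rw [Real.rpow_mul (by norm_num), Real.rpow_natCast]
  have h2 : Tendsto (fun k : ℕ => (4 : ℝ) ^ ((b - a) * k)) atTop atTop := by
    have hr : 1 < (4 : ℝ) ^ (b - a) := Real.one_lt_rpow (by norm_num) (by linarith)
    refine (tendsto_pow_atTop_atTop_of_one_lt hr).congr fun k => ?_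
    rw [Real.rpow_mul (by norm_num), Real.rpow_natCast]
  filter_upwards [h1.eventually_ge_atTop (2 * c), h2.eventually_ge_atTop 2] with k h3 h4
  have h5 : (4 : ℝ) ^ (b * k) = (4 : ℝ) ^ (a * k) * (4 : ℝ) ^ ((b - a) * k) := by
    rw [← Real.rpow_add (by norm_num)]
    congr 1
    ring
  have h6 : (0 : ℝ) < (4 : ℝ) ^ (a * k) := by positivity
  nlinarith

theorem grow8 (hPR : S_PR) (δ : ℝ) (hδ : 0 < δ) (hδ1 : δ ≤ 1 / 8) (N : ℕ) (hN : 1 < N * δ) :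
    ∃ m : ℕ → ℕ, (∀ k, 2 * m k ≤ (Cb k).card) ∧ Subd δ m ∧ Lo m ∧
    ∀ᶠ k : ℕ in atTop, ∀ n : ℕ, Ms m k ≤ n → (4 : ℝ) ^ (k + 1) ≤ (n : ℝ) ^ N := by
  obtain ⟨k1, hk1⟩ := hPR
  have hA : ∀ᶠ k in atTop, 2 * m1 δ k ≤ (Cb k).card := by
    filter_upwards [ev_pow 2 2 (by norm_num),
      eventually_ge_atTop k1, eventually_ge_atTop 5] with k h2 h3 h6
    have h1 : (m1 δ k : ℝ) ≤ (4 : ℝ) ^ ((1 / 2 : ℝ) * k) := by
      refine (m1_le δ k).trans (Real.rpow_le_rpow_of_exponent_le (by norm_num) ?_)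
      have : (0 : ℝ) ≤ k := Nat.cast_nonneg k
      nlinarith
    have h4 := hk1 k h3
    have h5 : (4 : ℝ) ^ ((1 / 2 : ℝ) * k) = 2 ^ k := by
      rw [Real.rpow_mul (by norm_num), Real.rpow_natCast]
      congr 1
      rw [show (4 : ℝ) = 2 ^ (2 : ℝ) by norm_num, ← Real.rpow_mul (by norm_num)]
      norm_num
    rw [h5] at h1
    have h7 : (5 : ℝ) ≤ k := by exact_mod_cast h6
    have h8 : (4 : ℝ) ^ k = 2 ^ k * 2 ^ k := by
      rw [← mul_pow]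
      norm_num
    have h9 : (0 : ℝ) < 2 ^ k := by positivity
    have h10 : 4 * ((k : ℝ) + 1) ≤ 2 ^ k := by nlinarith
    have h11 : 2 * (2 : ℝ) ^ k ≤ ((Cb k).card : ℝ) := by
      by_contra hc
      push Not at hc
      have h12 : 2 * ((k : ℝ) + 1) * ((Cb k).card : ℝ) < 2 * ((k : ℝ) + 1) * (2 * 2 ^ k) :=
        mul_lt_mul_of_pos_left hc (by positivity)
      nlinarith
    have h12 : ((2 * m1 δ k : ℕ) : ℝ) ≤ ((Cb k).card : ℝ) := by
      push_cast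
      linarith
    exact_mod_cast h12
  obtain ⟨k2, hk2⟩ := eventually_atTop.1 hA
  obtain ⟨k3, hk3⟩ := eventually_atTop.1 (Pool.Agent.E8helper94.GS.ev_quad δ hδ)
  have hN0 : (0 : ℝ) < N := by
    by_contra hc
    have := mul_nonpos_of_nonpos_of_nonneg (not_lt.1 hc) hδ.le
    linarith
  -- an exponent between 1 / N and δ
  obtain ⟨κ, hκ0, hκ1, hκ2⟩ : ∃ κ : ℝ, 0 < κ ∧ κ < δ ∧ 1 < N * κ := by
    refine ⟨(1 / N + δ) / 2, by positivity, ?_, ?_⟩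
    · have : 1 / (N : ℝ) < δ := by rw [div_lt_iff₀ hN0]; linarith
      linarith
    · have : (N : ℝ) * ((1 / N + δ) / 2) = (1 + N * δ) / 2 := by field_simp
      rw [this]; linarith
  obtain ⟨k4, hk4⟩ := eventually_atTop.1 (ev_exp κ δ 1 hδ hκ1)
  obtain ⟨k5, hk5⟩ : ∃ k5 : ℕ, 2 / (N * κ - 1) ≤ k5 := exists_nat_ge _
  refine ⟨fun k => if k < k2 then 0 else m1 δ k, ?_, ?_, ?_, ?_⟩
  · intro k
    dsimp only
    split_ifs with hk
    · simp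
    · exact hk2 k (not_lt.1 hk)
  · unfold Subd
    filter_upwards [eventually_ge_atTop k2] with k h2
    rw [if_neg (not_lt.2 h2)]
    exact m1_le δ k
  · unfold Lo
    filter_upwards [eventually_ge_atTop k2, eventually_ge_atTop k3] with k h2 h3
    rw [if_neg (not_lt.2 h2)]
    refine Nat.le_floor ?_
    have h4 := hk3 k h3
    have h5 : (0 : ℝ) ≤ (k : ℝ) ^ 4 := by positivity
    rw [Pool.Agent.E8helper54.GS.sq_eq]
    push_cast
    nlinarith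
  · filter_upwards [eventually_ge_atTop (k2 + k4 + k5 + 3)] with k h1 n hn
    obtain ⟨l, rfl⟩ : ∃ l, k = l + 1 := ⟨k - 1, by omega⟩
    have h3 : m1 δ l ≤ n := by
      refine le_trans ?_ hn
      unfold Ms
      have h4 := Finset.single_le_sum (f := fun k => if k < k2 then 0 else m1 δ k)
        (fun i _ => Nat.zero_le _) (Finset.mem_range.2 (Nat.lt_succ_self l))
      have h5 : ¬ l < k2 := by omega
      simp only [if_neg h5] at h4
      exact h4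
    have h4 := hk4 l (by omega)
    have h6 : (4 : ℝ) ^ (δ * l) < (m1 δ l : ℝ) + 1 := Nat.lt_floor_add_one _
    have h7 : (4 : ℝ) ^ (κ * l) ≤ (n : ℝ) := by
      have h8 : (m1 δ l : ℝ) ≤ n := by exact_mod_cast h3
      linarith
    have h9 : (l : ℝ) + 2 ≤ κ * l * N := by
      have h10 : (k5 : ℝ) ≤ l := by exact_mod_cast (by omega : k5 ≤ l)
      have h11 : 2 / (N * κ - 1) ≤ (l : ℝ) := hk5.trans h10
      rw [div_le_iff₀ (by linarith)] at h11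
      nlinarith
    calc (4 : ℝ) ^ (l + 1 + 1) = (4 : ℝ) ^ ((l : ℝ) + 2) := by
          rw [← Real.rpow_natCast]
          congr 1
          push_cast
          ring
      _ ≤ (4 : ℝ) ^ (κ * l * (N : ℝ)) :=
          Real.rpow_le_rpow_of_exponent_le (by norm_num) h9
      _ = ((4 : ℝ) ^ (κ * l)) ^ N := by
          rw [Real.rpow_mul (by norm_num) (κ * l), Real.rpow_natCast]
      _ ≤ (n : ℝ) ^ N := pow_le_pow_left₀ (by positivity) h7 _

end Pool.Agent.E8helper11.GS
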