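import Pool.Agent.E8helper11.GS.HitsCore
import Pool.Agent.E8helper11.GS.Sharp

/-! # Project GS: assembly of the second part with explicit exponents -/

set_option autoImplicit false

open Filter Topology
open scoped Classical

namespace Pool.Agent.E8helper11.GS

open N0ef6d136

theorem choose_params (N : ℕ) (hN : 9 ≤ N) (ε : ℝ) (hε : 7 / ((N : ℝ) - 7) < ε) :
    ∃ δ θ η : ℝ, 0 < δ ∧ δ ≤ 1 / 8 ∧ 1 < N * δ ∧ 0 < θ ∧ θ ≤ 1 ∧ θ < 1 - 7 * δ ∧ 0 < η ∧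
      1 < (1 + η) * θ ∧ η < ε := by
  have hN' : (9 : ℝ) ≤ N := by exact_mod_cast hN
  have hN7 : (0 : ℝ) < (N : ℝ) - 7 := by linarith
  set η := (7 / ((N : ℝ) - 7) + ε) / 2 with hη
  have h1 : 7 / ((N : ℝ) - 7) < η := by rw [hη]; linarith
  have h2 : η < ε := by rw [hη]; linarith
  have hη0 : 0 < η := lt_trans (by positivity) h1
  have h3 : 7 < η * ((N : ℝ) - 7) := by rwa [div_lt_iff₀ hN7] at h1
  set c := η / (7 * (1 + η)) with hc
  have hc1 : 1 / (N : ℝ) < c := by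
    rw [hc, div_lt_div_iff₀ (by linarith) (by linarith)]
    nlinarith
  have hN8 : 1 / (N : ℝ) < 1 / 8 := by
    rw [div_lt_div_iff₀ (by linarith) (by norm_num)]
    linarith
  set δ := min (1 / 8) ((1 / (N : ℝ) + c) / 2) with hδ
  have h4 : 1 / (N : ℝ) < δ := lt_min hN8 (by linarith)
  have h5 : δ < c := lt_of_le_of_lt (min_le_right _ _) (by linarith)
  have hδ0 : 0 < δ := lt_trans (by positivity) h4
  have h6 : δ * (7 * (1 + η)) < η := by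
    rwa [hc, lt_div_iff₀ (by linarith)] at h5
  have h7 : 1 / (1 + η) < 1 - 7 * δ := by
    rw [div_lt_iff₀ (by linarith)]
    nlinarith
  have h8 : 0 < 1 / (1 + η) := by positivity
  refine ⟨δ, (1 / (1 + η) + (1 - 7 * δ)) / 2, η, hδ0, min_le_left _ _, ?_, by linarith,
    by linarith, by linarith, hη0, ?_, h2⟩
  · rw [div_lt_iff₀ (by linarith)] at h4
    linarith
  · have h9 : (1 + η) * (1 / (1 + η)) = 1 := by field_simp
    nlinarith

theorem t_FIN3 (hPR : S_PR) (hHC : S_HC) (hBL : S_BL) (hSEL : S_SEL) (hENUM : S_ENUM)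
    (hSUMM : S_SUMMd) (hPROD : S_PROD) (hSIEVE : S_SIEVE) (hCNT : S_CNT) (hREG : S_REG)
    (hTUP : S_TUP) (hTLOW : S_TLOW) (hGAP : S_GAPd) : ∀ N : ℕ, 9 ≤ N →
    ∀ ε : ℝ, 7 / ((N : ℝ) - 7) < ε →
    ∃ u : ℕ → ℕ, StrictMono u ∧ (∀ i, (u i).Prime) ∧
      (∀ i j, i ≠ j → Nat.Coprime (u i) (u j)) ∧ Summable (fun n => 1 / (u n : ℝ)) ∧ Gap ε u ∧
      ∀ᶠ n : ℕ in atTop, (u n : ℝ) ≤ (n : ℝ) ^ N := by
  intro N hN ε hε
  obtain ⟨δ, θ, η, hδ0, hδ1, hNδ, hθ0, hθ1, hθ2, hη0, hηθ, hηε⟩ := choose_params N hN ε hε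
  obtain ⟨m, h2m, hSub, hLo, hG⟩ := grow8 hPR δ hδ0 hδ1 N hNδ
  obtain ⟨B, hB1, hB2, hPot⟩ := hSEL hBL hHC m h2m
  obtain ⟨u, hmono, huB, hBu, hPos⟩ := hENUM m B hB1 hB2 hLo
  have hp : ∀ i, (u i).Prime := by
    intro i
    obtain ⟨k, hk⟩ := huB i
    have := hB1 k hk
    unfold Cb at this
    exact (Finset.mem_filter.1 this).2
  have h2 : ∀ i, 2 ≤ u i := fun i => (hp i).two_le
  have hcop : ∀ i j, i ≠ j → Nat.Coprime (u i) (u j) := fun i j hij =>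
    (Nat.coprime_primes (hp i) (hp j)).2 (hmono.injective.ne hij)
  have hsum := hSUMM m u δ (by linarith) hmono hPos hSub h2
  have hT := hTLOW m u hmono h2 hPos hLo
  have hBg := big8 m u δ hδ1 h2 hPos hSub
  have hH := hits_core hCNT hREG m u B hmono h2 hB1 huB hPos hPot θ η hθ0 hθ1 hηθ
    (lam7 hPR m δ θ hδ0 hθ2 hSub hLo) hT
  have hgap := hGAP hSIEVE hPROD hTUP u ε η hη0 hηε hmono h2 hcop hsum hT hBg hH
  refine ⟨u, hmono, hp, hcop, hsum, hgap, ?_⟩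
  obtain ⟨k0, hk0⟩ := eventually_atTop.1 hG
  filter_upwards [eventually_ge_atTop (Ms m k0)] with n hn
  have hex : ∃ K, n < Ms m K := ⟨u n, (hPos n (u n)).1 (Nat.lt_pow_self (by norm_num))⟩
  have hK := Nat.find_spec hex
  have hKk : k0 < Nat.find hex := by
    by_contra hcon
    exact absurd (lt_of_lt_of_le hK (Ms_mono m (not_lt.1 hcon))) (not_lt.2 hn)
  obtain ⟨k, hk⟩ : ∃ k, Nat.find hex = k + 1 := ⟨Nat.find hex - 1, by omega⟩
  have hmin : ¬ n < Ms m k := Nat.find_min hex (by omega)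
  rw [hk] at hK
  have h1 : u n < 4 ^ (k + 1) := (hPos n (k + 1)).2 hK
  have h3 := hk0 k (by omega) n (not_lt.1 hmin)
  have h4 : (u n : ℝ) ≤ (4 : ℝ) ^ (k + 1) := by exact_mod_cast h1.le
  exact h4.trans h3

end Pool.Agent.E8helper11.GS
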