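import Pool.Agent.E8helper11.GS.Stm2

/-! # Project GS: few hits, from one core lemma -/

set_option autoImplicit false

open Filter Topology
open scoped Classical

namespace Pool.Agent.E8helper11.GS

open N0ef6d136

lemma lam_nonneg (m : ℕ → ℕ) (k : ℕ) : 0 ≤ lam m k := by
  unfold lam; positivity

lemma hits_prod (m u : ℕ → ℕ) (B : ℕ → Finset ℕ) (hmono : StrictMono u)
    (hB : ∀ k, B k ⊆ Cb k) (huB : ∀ i, ∃ k, u i ∈ B k) (hPos : Pos m u)
    (hPot : Pot m B) (θ : ℝ) (hθ : 0 < θ) (k0 : ℕ)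
    (hk0 : ∀ k ≥ k0, (4 : ℝ) ^ (θ * ((k : ℝ) + 1)) ≤ 1 + lam m k)
    (j a : ℕ) (hj1 : 1 ≤ j) (hj : (Ms m k0) ^ 2 ≤ j) (ha : a < 4 ^ j) (H : Finset ℕ)
    (hH : ∀ i ∈ H, j ≤ i ^ 2 ∧ Hit j a (u i)) :
    ∏ i ∈ H, (u i : ℝ) ^ θ ≤ 15 * (4 : ℝ) ^ j * (j : ℝ) ^ 2 := by
  choose g hg using huB
  have hCb : ∀ i, 4 ^ g i ≤ u i ∧ u i < 4 ^ (g i + 1) := by
    intro i
    have := hB _ (hg i)
    unfold Cb at this
    have := Finset.mem_Ico.1 (Finset.mem_filter.1 this).1
    exact this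
  obtain ⟨K, hK⟩ : ∃ K, ∀ i ∈ H, g i < K := by
    refine ⟨H.sup g + 1, fun i hi => ?_⟩
    have := Finset.le_sup (f := g) hi
    omega
  have hfib := Finset.prod_fiberwise_of_maps_to (s := H) (t := Finset.range K) (g := g)
    (fun i hi => Finset.mem_range.2 (hK i hi)) (fun i => (u i : ℝ) ^ θ)
  rw [← hfib]
  refine le_trans ?_ (hPot j a K hj1 ha)
  refine Finset.prod_le_prod (fun k _ => Finset.prod_nonneg fun i _ => by positivity) ?_
  intro k _
  have hl := lam_nonneg m k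
  rcases (H.filter (fun i => g i = k)).eq_empty_or_nonempty with he | ⟨i0, hi0⟩
  · rw [he, Finset.prod_empty]
    split_ifs
    · exact one_le_pow₀ (by linarith)
    · exact le_rfl
  · obtain ⟨hi0H, hi0k⟩ := Finset.mem_filter.1 hi0
    have hi1 : i0 < Ms m (k + 1) := (hPos i0 (k + 1)).1 (by rw [← hi0k]; exact (hCb i0).2)
    have hj2 : j < (Ms m (k + 1)) ^ 2 :=
      lt_of_le_of_lt (hH i0 hi0H).1 (Nat.pow_lt_pow_left hi1 (by norm_num))
    have hkk : k0 ≤ k := by
      by_contra hcon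
      have h5 : u i0 < 4 ^ k0 := lt_of_lt_of_le (hCb i0).2
        (Nat.pow_le_pow_right (by norm_num) (by omega))
      have h6 := (hPos i0 k0).1 h5
      have h7 : i0 ^ 2 < (Ms m k0) ^ 2 := Nat.pow_lt_pow_left h6 (by norm_num)
      have := (hH i0 hi0H).1
      omega
    rw [if_pos hj2]
    have hterm : ∀ i ∈ H.filter (fun i => g i = k), (u i : ℝ) ^ θ ≤ 1 + lam m k := by
      intro i hi
      obtain ⟨hiH, hik⟩ := Finset.mem_filter.1 hi
      refine le_trans ?_ (hk0 k hkk)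
      have h8 : (u i : ℝ) ≤ (4 : ℝ) ^ ((k : ℝ) + 1) := by
        have := (hCb i).2
        rw [hik] at this
        have h9 : (u i : ℝ) ≤ (4 : ℝ) ^ (k + 1) := by exact_mod_cast this.le
        rw [← Real.rpow_natCast] at h9
        push_cast at h9
        exact h9
      calc (u i : ℝ) ^ θ ≤ ((4 : ℝ) ^ ((k : ℝ) + 1)) ^ θ :=
            Real.rpow_le_rpow (by positivity) h8 hθ.le
        _ = (4 : ℝ) ^ (θ * ((k : ℝ) + 1)) := by
            rw [← Real.rpow_mul (by norm_num)]; ring_nf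
    calc ∏ i ∈ H.filter (fun i => g i = k), (u i : ℝ) ^ θ
        ≤ ∏ _i ∈ H.filter (fun i => g i = k), (1 + lam m k) :=
          Finset.prod_le_prod (fun i _ => by positivity) hterm
      _ = (1 + lam m k) ^ (H.filter (fun i => g i = k)).card := by
          rw [Finset.prod_const]
      _ ≤ (1 + lam m k) ^ ((B k).filter (fun q => Hit j a q)).card := by
          refine pow_le_pow_right₀ (by linarith) ?_
          refine Finset.card_le_card_of_injOn u ?_ (fun x _ y _ h => hmono.injective h)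
          intro i hi
          obtain ⟨hiH, hik⟩ := Finset.mem_filter.1 hi
          have h10 := hg i
          rw [hik] at h10
          exact Finset.mem_coe.2 (Finset.mem_filter.2 ⟨h10, (hH i hiH).2⟩)

lemma ev_ineq (θ η' : ℝ) (h : 1 < (1 + η') * θ) :
    ∀ᶠ j : ℕ in atTop, Real.log 15 + j * Real.log 4 + 2 * Real.log j ≤
      θ * (1 + η') * ((j : ℝ) - 1) * Real.log 4 := by
  have hl4 : 0 < Real.log 4 := Real.log_pos (by norm_num)
  have h1 : Tendsto (fun j : ℕ => Real.log (j : ℝ) / (j : ℝ)) atTop (𝓝 0) := by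
    have := Real.tendsto_pow_log_div_mul_add_atTop 1 0 1 one_ne_zero
    simp only [pow_one, one_mul, add_zero] at this
    exact this.comp tendsto_natCast_atTop_atTop
  have h2 : Tendsto (fun j : ℕ => (Real.log 15 + θ * (1 + η') * Real.log 4) / (j : ℝ)) atTop (𝓝 0) :=
    tendsto_const_nhds.div_atTop tendsto_natCast_atTop_atTop
  set c := ((1 + η') * θ - 1) * Real.log 4 with hc
  have hc0 : 0 < c := mul_pos (by linarith) hl4
  filter_upwards [h1.eventually (gt_mem_nhds (show (0 : ℝ) < c / 4 by positivity)),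
    h2.eventually (gt_mem_nhds (show (0 : ℝ) < c / 2 by positivity)),
    eventually_gt_atTop 0] with j hj1 hj2 hj3
  have hj4 : (0 : ℝ) < j := by exact_mod_cast hj3
  rw [div_lt_iff₀ hj4] at hj1 hj2
  have : θ * (1 + η') * ((j : ℝ) - 1) * Real.log 4 = (c + Real.log 4) * j - θ * (1 + η') * Real.log 4 := by
    rw [hc]; ring
  rw [this]
  nlinarith

theorem hits_core (hCNT : S_CNT) (hREG : S_REG) (m u : ℕ → ℕ) (B : ℕ → Finset ℕ)
    (hmono : StrictMono u) (h2 : ∀ i, 2 ≤ u i)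
    (hB : ∀ k, B k ⊆ Cb k) (huB : ∀ i, ∃ k, u i ∈ B k) (hPos : Pos m u)
    (hPot : Pot m B) (θ η : ℝ) (hθ : 0 < θ) (hθ1 : θ ≤ 1) (h1 : 1 < (1 + η) * θ)
    (hlam : ∀ᶠ k : ℕ in atTop, (4 : ℝ) ^ (θ * ((k : ℝ) + 1)) ≤ 1 + lam m k) (hT : HT u) :
    HHd η u := by
  obtain ⟨k0, hk0⟩ := eventually_atTop.1 hlam
  -- an intermediate constant
  obtain ⟨η', h3, h4⟩ : ∃ η', η' < η ∧ 1 < (1 + η') * θ := by
    refine ⟨η - ((1 + η) * θ - 1) / (2 * θ), ?_, ?_⟩
    · have : 0 < ((1 + η) * θ - 1) / (2 * θ) := div_pos (by linarith) (by linarith)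
      linarith
    · have : (1 + (η - ((1 + η) * θ - 1) / (2 * θ))) * θ = (1 + η) * θ - ((1 + η) * θ - 1) / 2 := by
        field_simp
        ring
      rw [this]; linarith
  have hposη' : 0 < 1 + η' := by
    by_contra hcon
    have : (1 + η') * θ ≤ 0 := mul_nonpos_of_nonpos_of_nonneg (not_lt.1 hcon) hθ.le
    linarith
  have hη0' : 0 ≤ η' := by nlinarith
  unfold HHd
  filter_upwards [ev_ineq θ η' h4, eventually_ge_atTop ((Ms m k0) ^ 2), eventually_ge_atTop 1,
    hT ((1 + η') / (η - η'))] with j hj1 hj2 hj3 hj4 x hx1 hx2 a ha H hH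
  have hprod := hits_prod m u B hmono hB huB hPos hPot θ hθ k0 hk0 j a hj3 hj2 ha H hH
  have hx0 : 1 ≤ x := by
    have : 0 < 4 ^ j := by positivity
    omega
  have hl4 : 0 < Real.log 4 := Real.log_pos (by norm_num)
  have hjpos : (0 : ℝ) < j := by exact_mod_cast hj3
  have hlog : Real.log ((∏ i ∈ H, u i : ℕ) : ℝ) ≤ (1 + η') * Real.log x := by
    have hP : (0 : ℝ) < ((∏ i ∈ H, u i : ℕ) : ℝ) := by
      exact_mod_cast Finset.prod_pos (fun i _ => by have := h2 i; omega)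
    have h5 : ((∏ i ∈ H, u i : ℕ) : ℝ) ^ θ ≤ 15 * (4 : ℝ) ^ j * (j : ℝ) ^ 2 := by
      rw [Nat.cast_prod, ← Real.finsetProd_rpow _ _ (fun i _ => by positivity)]
      exact hprod
    have h6 := Real.log_le_log (by positivity) h5
    rw [Real.log_rpow hP, Real.log_mul (by positivity) (by positivity),
      Real.log_mul (by norm_num) (by positivity), Real.log_pow, Real.log_pow] at h6
    have h7 : ((j : ℝ) - 1) * Real.log 4 ≤ Real.log x := by
      have h8 : (4 : ℝ) ^ j ≤ 4 * x := by exact_mod_cast hx1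
      have h9 := Real.log_le_log (by positivity) h8
      rw [Real.log_pow, Real.log_mul (by norm_num) (by positivity)] at h9
      linarith
    have h10 : θ * Real.log ((∏ i ∈ H, u i : ℕ) : ℝ) ≤ θ * ((1 + η') * Real.log x) := by
      calc θ * Real.log ((∏ i ∈ H, u i : ℕ) : ℝ) ≤ Real.log 15 + j * Real.log 4 + 2 * Real.log j := by
            push_cast at h6 ⊢; linarith
        _ ≤ θ * (1 + η') * ((j : ℝ) - 1) * Real.log 4 := hj1
        _ = θ * (1 + η') * (((j : ℝ) - 1) * Real.log 4) := by ring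
        _ ≤ θ * (1 + η') * Real.log x := mul_le_mul_of_nonneg_left h7 (by positivity)
        _ = θ * ((1 + η') * Real.log x) := by ring
    exact le_of_mul_le_mul_left h10 hθ
  have h11 := hCNT u hmono h2 H (∏ i ∈ H, u i) le_rfl
  have h12 := hREG u hmono h2 x (∏ i ∈ H, u i) η' hη0' hx0 hlog
  have h13 : (1 + η') / (η - η') ≤ (t u x : ℝ) := by
    refine le_trans ?_ (hj4 x hx1)
    have : 1 ≤ Real.sqrt j := by
      rw [Real.one_le_sqrt]; exact_mod_cast hj3
    have h14 : 0 ≤ (1 + η') / (η - η') := div_nonneg hposη'.le (by linarith)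
    nlinarith
  rw [div_le_iff₀ (by linarith)] at h13
  have h15 : (H.card : ℝ) ≤ (t u (∏ i ∈ H, u i) : ℝ) := by exact_mod_cast h11
  nlinarith

end Pool.Agent.E8helper11.GS
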