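import Mathlib
import Pool.Prelude.Def_F_a2e9aac2

/-!
# Project GS (MP_0ecee9_nt): good coprime sequences of growth just above polynomial

Goal: for every `f → ∞` there is a good sequence `u` (in the sense of the frozen definition
`IsGood`) with `u n ≤ n ^ f n` for all large `n`. The sequence enumerates a set of primes with
`m k` elements in `[4^k, 4^(k+1))`, chosen block by block with a potential function so that no short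
interval `(a, a + j^2]`, `a < 4^j`, meets multiples of too many of them.
-/

set_option autoImplicit false

open Filter Topology
open scoped Classical

namespace Pool.Agent.E8helper11.GS

open N0ef6d136

/-- the primes of the block `k` -/
noncomputable def Cb (k : ℕ) : Finset ℕ := (Finset.Ico (4 ^ k) (4 ^ (k + 1))).filter Nat.Prime

/-- partial sums of the block sizes -/
def Ms (m : ℕ → ℕ) (k : ℕ) : ℕ := ∑ i ∈ Finset.range k, m i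

/-- the weight of a hit by a prime of the block `k` -/
noncomputable def lam (m : ℕ → ℕ) (k : ℕ) : ℝ :=
  ((Cb k).card : ℝ) / (8 * (Ms m (k + 1) : ℝ) ^ 6 * (m k : ℝ) * ((k : ℝ) + 1) ^ 2)

/-- `q` has a multiple in `(a, a + j^2]` -/
def Hit (j a q : ℕ) : Prop := ∃ i, a < i ∧ i ≤ a + j ^ 2 ∧ q ∣ i

/-- subexponential block sizes -/
def Sub (m : ℕ → ℕ) : Prop := ∀ δ : ℝ, 0 < δ → ∀ᶠ k : ℕ in atTop, (m k : ℝ) ≤ (4 : ℝ) ^ (δ * k)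

/-- block sizes at least `k^4` -/
def Lo (m : ℕ → ℕ) : Prop := ∀ᶠ k : ℕ in atTop, k ^ 4 ≤ m k

/-- the position of the terms -/
def Pos (m u : ℕ → ℕ) : Prop := ∀ i k, u i < 4 ^ k ↔ i < Ms m k

/-- the bound for the potential -/
def Pot (m : ℕ → ℕ) (B : ℕ → Finset ℕ) : Prop :=
  ∀ j a K : ℕ, 1 ≤ j → a < 4 ^ j →
    ∏ k ∈ Finset.range K, (if j < (Ms m (k + 1)) ^ 2 then
      (1 + lam m k) ^ ((B k).filter (fun q => Hit j a q)).card else 1) ≤ 15 * (4 : ℝ) ^ j * (j : ℝ) ^ 2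

/-- the lower bound for `t` -/
def HT (u : ℕ → ℕ) : Prop := ∀ C : ℝ, ∀ᶠ j : ℕ in atTop, ∀ x : ℕ, 4 ^ j ≤ 4 * x →
  C * Real.sqrt j ≤ (t u x : ℝ)

/-- the terms with a large index are large -/
def HB (u : ℕ → ℕ) : Prop := ∀ᶠ j : ℕ in atTop, ∀ l : ℕ, j ≤ l ^ 2 → j ^ 2 < u l

/-- few hits by the terms with a large index -/
def HH (u : ℕ → ℕ) : Prop := ∀ δ : ℝ, 0 < δ → ∀ᶠ j : ℕ in atTop, ∀ x : ℕ, 4 ^ j ≤ 4 * x →
  x < 4 ^ j → ∀ a : ℕ, a < 4 ^ j → ∀ H : Finset ℕ, (∀ i ∈ H, j ≤ i ^ 2 ∧ Hit j a (u i)) →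
    (H.card : ℝ) ≤ (1 + δ) * (t u x : ℝ)

/-- PR: primes in a block. `Chebyshev.theta_ge` at `4^(k+1)` (`(4^(k+1)) log 2 - ...`) minus
`theta_le_log4_mul_x` at `4^k`: the difference is `≥ 2 log 2 * 4^k * (1 - o(1))`, and each prime
of the block has `log p ≤ (k+1) log 4`. -/
def S_PR : Prop := ∃ k1 : ℕ, ∀ k ≥ k1, (4 : ℝ) ^ k ≤ 2 * ((k : ℝ) + 1) * ((Cb k).card : ℝ)

/-- HC: every `i ≤ 4^j + j^2 ≤ 4^(j+1)` has at most `2 (j+1) ≤ 4 j` prime divisors, and there are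
`j^2` such `i`. -/
def S_HC : Prop := ∀ j a k : ℕ, 1 ≤ j → a < 4 ^ j →
  ((Cb k).filter (fun q => Hit j a q)).card ≤ 4 * j ^ 3

/-- BL: selection in one block, one prime after the other: the average over the
`≥ D.card - m ≥ D.card / 2` remaining elements of the factor of `t` is at most
`1 + l * h / (D.card / 2)`. Induction on `m' ≤ m`. -/
def S_BL : Prop := ∀ (τ : Type) (T : Finset τ) (w : τ → ℝ) (D : Finset ℕ) (P : τ → ℕ → Prop)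
  (h m : ℕ) (l : ℝ), (∀ s ∈ T, 0 ≤ w s) → 0 ≤ l → 2 * m ≤ D.card →
  (∀ s ∈ T, (D.filter (fun q => P s q)).card ≤ h) →
  ∃ B ⊆ D, B.card = m ∧ ∑ s ∈ T, w s * (1 + l) ^ (B.filter (fun q => P s q)).card ≤
    (1 + 2 * l * h / (D.card : ℝ)) ^ m * ∑ s ∈ T, w s

/-- SEL: all the blocks, recursively. With
`Φ K = ∑_{1 ≤ j < (Ms m K)^2} ∑_{a < 4^j} 4^(-j) j^(-2) ∏_{k < K} (factor of Pot)` (the terms `j` that
enter at step `K` have all earlier factors `1`, as `Ms m` is monotone) `S_BL` (with `h = 4 j^3 ≤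
4 (Ms m (K+1))^6`, `l = lam m K`, `D = Cb K`) gives
`Φ (K+1) ≤ (1 + 1/(m K (K+1)^2))^(m K) (Φ K + new) ≤ exp (1/(K+1)^2) (Φ K + new)`, hence
`Φ K ≤ exp (∑ 1/(k+1)^2) * ∑ 1/j^2 ≤ e^2 * 2 ≤ 15`. -/
def S_SEL : Prop := S_BL → S_HC → ∀ m : ℕ → ℕ, (∀ k, 2 * m k ≤ (Cb k).card) →
  ∃ B : ℕ → Finset ℕ, (∀ k, B k ⊆ Cb k) ∧ (∀ k, (B k).card = m k) ∧ Pot m B

/-- ENUM: the enumeration of the union of the blocks (`Nat.nth`). -/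
def S_ENUM : Prop := ∀ (m : ℕ → ℕ) (B : ℕ → Finset ℕ), (∀ k, B k ⊆ Cb k) →
  (∀ k, (B k).card = m k) → Lo m →
  ∃ u : ℕ → ℕ, StrictMono u ∧ (∀ i, ∃ k, u i ∈ B k) ∧ (∀ k, ∀ q ∈ B k, ∃ i, u i = q) ∧ Pos m u

/-- SUMM -/
def S_SUMM : Prop := ∀ m u : ℕ → ℕ, StrictMono u → Pos m u → Sub m → (∀ i, 2 ≤ u i) →
  Summable (fun n => 1 / (u n : ℝ))

/-- PROD -/
def S_PROD : Prop := ∀ u : ℕ → ℕ, (∀ i, 2 ≤ u i) → Summable (fun n => 1 / (u n : ℝ)) →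
  0 < ∏' i : ℕ, (1 - 1 / (u i : ℝ)) ∧
  ∀ s : ℕ, ∏' i : ℕ, (1 - 1 / (u i : ℝ)) ≤ ∏ i ∈ Finset.range s, (1 - 1 / (u i : ℝ))

/-- SIEVE: induction on `s` over `2^s` error terms, or inclusion and exclusion
(numbers divisible by `∏_{i ∈ D} u i`: `W / ∏ + O(1)`). A convenient induction: for every `d` coprime
to `u 0, ..., u (s-1)` the number of multiples of `d` in `(a, a+W]` not divisible by any `u i`, `i < s`,
differs from `W / d * ∏ (1 - 1/u i)` by at most `2^s`. -/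
def S_SIEVE : Prop := ∀ u : ℕ → ℕ, (∀ i, 2 ≤ u i) → (∀ i j, i ≠ j → Nat.Coprime (u i) (u j)) →
  ∀ s a W : ℕ, (W : ℝ) * ∏ i ∈ Finset.range s, (1 - 1 / (u i : ℝ)) - 2 ^ s ≤
    (((Finset.Ioc a (a + W)).filter (fun n => ∀ i < s, ¬ u i ∣ n)).card : ℝ)

/-- CNT: `∏_{i < H.card} u i ≤ ∏_{i ∈ H} u i`. -/
def S_CNT : Prop := ∀ u : ℕ → ℕ, StrictMono u → (∀ i, 2 ≤ u i) → ∀ (H : Finset ℕ) (y : ℕ),
  ∏ i ∈ H, u i ≤ y → H.card ≤ t u y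

/-- REG: put `T = t u x`, `T' = t u y`, `S = ∑_{i ≤ T} log (u i) > log x`; if `T' > T + 1` then
`∑_{i < T'} log (u i) ≥ S + (T' - T - 1) S / (T + 1)` and it is `≤ log y ≤ (1 + δ) S`. -/
def S_REG : Prop := ∀ u : ℕ → ℕ, StrictMono u → (∀ i, 2 ≤ u i) → ∀ (x y : ℕ) (δ : ℝ), 0 ≤ δ →
  1 ≤ x → Real.log y ≤ (1 + δ) * Real.log x → (t u y : ℝ) ≤ (1 + δ) * ((t u x : ℝ) + 1)

/-- TUP -/
def S_TUP : Prop := ∀ u : ℕ → ℕ, (∀ i, 2 ≤ u i) → ∀ x j : ℕ, x < 4 ^ j → t u x ≤ 2 * j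

/-- TLOW: `N = ⌈C √j⌉`, `K` minimal with `Ms m K ≥ N` (`K ≤ c N^(1/5) + c`), the product of the first
`N` terms is at most `4^(K N) ≤ 4^(j-1) ≤ x`. -/
def S_TLOW : Prop := ∀ m u : ℕ → ℕ, StrictMono u → (∀ i, 2 ≤ u i) → Pos m u → Lo m → HT u

/-- BIG: `l ≥ √j`, `k` the block of `l`, `√j ≤ l < Ms m (k+1) ≤ 4^(k/8)` (`Sub m`), so
`u l ≥ 4^k > j^2`. -/
def S_BIG : Prop := ∀ m u : ℕ → ℕ, StrictMono u → (∀ i, 2 ≤ u i) → Pos m u → Sub m → Lo m → HB u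

/-- LAM -/
def S_LAM : Prop := S_PR → ∀ m : ℕ → ℕ, Sub m → Lo m → ∀ δ : ℝ, 0 < δ →
  ∀ᶠ k : ℕ in atTop, (4 : ℝ) ^ ((1 - δ) * ((k : ℝ) + 1)) ≤ 1 + lam m k

/-- HITS: for `i ∈ H`, `k` the block of `i` (`Ms m k ≤ i < Ms m (k+1)`, `u i ∈ B k`),
`j ≤ i^2 < (Ms m (k+1))^2`, so `Pot` gives `∏_{i ∈ H} (1 + lam m (k i)) ≤ 15 * 4^j * j^2`, and
`1 + lam m (k i) ≥ 4^((1-δ)(k+1)) ≥ (u i)^(1-δ)` (`k i → ∞` with `j`). So
`∏_{i ∈ H} u i ≤ (15 * 4^j * j^2)^(1/(1-δ)) ≤ x^(1 + 4 δ)`; use `S_CNT` with `y = ⌊x^(1+4δ)⌋`, `S_REG`,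
and `HT u` (`t u x → ∞`) for the `+ 1`. -/
def S_HITS : Prop := S_CNT → S_REG → ∀ (m u : ℕ → ℕ) (B : ℕ → Finset ℕ), StrictMono u →
  (∀ i, 2 ≤ u i) → (∀ k, B k ⊆ Cb k) → (∀ i, ∃ k, u i ∈ B k) → Pos m u → Sub m → Lo m →
  Pot m B → (∀ δ : ℝ, 0 < δ →
    ∀ᶠ k : ℕ in atTop, (4 : ℝ) ^ ((1 - δ) * ((k : ℝ) + 1)) ≤ 1 + lam m k) → HT u → HH u

/-- GAP: the condition (4). Let `P = ∏' (1 - 1/u i)`, `G = (1+ε) t P⁻¹`, `t = t u x`,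
`4^(j-1) ≤ x < 4^j`, `a = A u k < x`, and suppose `A u (k+1) - a ≥ G`. `W = ⌈G⌉ - 1`, `W ≤ j^2` by `S_TUP`.
All `n ∈ (a, a+W]` are divisible by some `u l`. At least `W P - 2^s` of them are not divisible by
`u l`, `l < s` (`S_SIEVE`, `S_PROD`). At most `∑_{s ≤ l, l^2 < j} (W / u l + 1) ≤ W τ_s + √j + 1`,
`τ_s = ∑_{l ≥ s} 1/u l`, are divisible by some `u l`, `s ≤ l`, `l^2 < j`. The others are divisible by
some `u l`, `j ≤ l^2`, different `n` have different `l` as `u l > j^2 ≥ W` (`HB`), so they are at most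
`(1+δ) t` (`HH`). So `(1+ε) t - 1 - 2^s ≤ (1+ε) P⁻¹ τ_s t + √j + 1 + (1+δ) t`, contradiction for large
`x` (`HT`) when `s` is large and `δ` is small. -/
def S_GAP : Prop := S_SIEVE → S_PROD → S_TUP → ∀ u : ℕ → ℕ, StrictMono u → (∀ i, 2 ≤ u i) →
  (∀ i j, i ≠ j → Nat.Coprime (u i) (u j)) → Summable (fun n => 1 / (u n : ℝ)) →
  HT u → HB u → HH u → IsGood u

/-- GROW: e.g. `m k = 0` for small `k` and `m k = ⌊4^(k / h k)⌋` for large `k` with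
`h k = max 1 (min (√k) (inf_{n ≥ k} f n / 3))`, or any other construction. -/
def S_GROW : Prop := S_PR → ∀ f : ℕ → ℝ, Tendsto f atTop atTop →
  ∃ m : ℕ → ℕ, (∀ k, 2 * m k ≤ (Cb k).card) ∧ Sub m ∧ Lo m ∧
    ∀ᶠ k : ℕ in atTop, ∀ n : ℕ, Ms m k ≤ n → (4 : ℝ) ^ (k + 1) ≤ (n : ℝ) ^ (f n)

/-- the target -/
def Target : Prop := ∀ f : ℕ → ℝ, Tendsto f atTop atTop →
  ∃ u : ℕ → ℕ, IsGood u ∧ ∀ᶠ n : ℕ in atTop, (u n : ℝ) ≤ (n : ℝ) ^ (f n)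

end Pool.Agent.E8helper11.GS
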