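import Pool.Agent.E8helper11.GS.Stm

/-!
# Project GS, second part: polynomial growth for every fixed `ε`

For every `ε > 0` there is a pairwise coprime sequence of primes of polynomial growth which satisfies
the gap condition with this `ε`. The block sizes are now at most `4^(δ k)` for one small `δ` only.
All the pieces are adaptations of the first part.
-/

set_option autoImplicit false

open Filter Topology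
open scoped Classical

namespace Pool.Agent.E8helper11.GS

open N0ef6d136

/-- block sizes at most `4^(δ k)` -/
def Subd (δ : ℝ) (m : ℕ → ℕ) : Prop := ∀ᶠ k : ℕ in atTop, (m k : ℝ) ≤ (4 : ℝ) ^ (δ * k)

/-- few hits by the terms with a large index, fixed `η` -/
def HHd (η : ℝ) (u : ℕ → ℕ) : Prop := ∀ᶠ j : ℕ in atTop, ∀ x : ℕ, 4 ^ j ≤ 4 * x →
  x < 4 ^ j → ∀ a : ℕ, a < 4 ^ j → ∀ H : Finset ℕ, (∀ i ∈ H, j ≤ i ^ 2 ∧ Hit j a (u i)) →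
    (H.card : ℝ) ≤ (1 + η) * (t u x : ℝ)

/-- the gap condition with one `ε` -/
def Gap (ε : ℝ) (u : ℕ → ℕ) : Prop := ∀ᶠ x in atTop, ∀ k, A u k < x →
  (A u (k + 1) : ℝ) - A u k < (1 + ε) * (t u x : ℝ) * (∏' i : ℕ, (1 - 1 / (u i : ℝ)))⁻¹

/-- SUMMd (adapt SUMM, `Pool/Agent/E8helper44/GS/SUMM.lean`) -/
def S_SUMMd : Prop := ∀ (m u : ℕ → ℕ) (δ : ℝ), δ ≤ 1 / 2 → StrictMono u → Pos m u → Subd δ m →
  (∀ i, 2 ≤ u i) → Summable (fun n => 1 / (u n : ℝ))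

/-- BIGd (adapt BIG, `Pool/Agent/E8helper57/GS/BIG.lean`): `√j ≤ l < Ms m (k+1) ≤ 4^(2 δ k)`, so
`j^2 ≤ 4^(8 δ k) < 4^k`. -/
def S_BIGd : Prop := ∀ (m u : ℕ → ℕ) (δ : ℝ), 0 < δ → δ ≤ 1 / 100 → StrictMono u →
  (∀ i, 2 ≤ u i) → Pos m u → Subd δ m → Lo m → HB u

/-- LAMd (adapt LAM, `Pool/Agent/E8helper38/GS/LAM.lean`): the denominator is at most
`poly(k) * 4^(7 δ k)`. -/
def S_LAMd : Prop := S_PR → ∀ (m : ℕ → ℕ) (δ : ℝ), 0 < δ → δ ≤ 1 / 100 → Subd δ m → Lo m →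
  ∀ᶠ k : ℕ in atTop, (4 : ℝ) ^ ((1 - 8 * δ) * ((k : ℝ) + 1)) ≤ 1 + lam m k

/-- HITSd (adapt HITS): `∏_{i ∈ H} (u i)^(1 - 8 δ) ≤ 15 * 4^j * j^2 ≤ 4^(j (1 + δ))`, so
`∏ u i ≤ 4^(j (1 + 10 δ)) ≤ x^(1 + 11 δ)`, so `H.card ≤ (1 + 11 δ) (t + 1) ≤ (1 + 12 δ) t`. -/
def S_HITSd : Prop := S_CNT → S_REG → ∀ (m u : ℕ → ℕ) (B : ℕ → Finset ℕ) (δ : ℝ), 0 < δ →
  δ ≤ 1 / 100 → StrictMono u → (∀ i, 2 ≤ u i) → (∀ k, B k ⊆ Cb k) → (∀ i, ∃ k, u i ∈ B k) →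
  Pos m u → Lo m → Pot m B →
  (∀ᶠ k : ℕ in atTop, (4 : ℝ) ^ ((1 - 8 * δ) * ((k : ℝ) + 1)) ≤ 1 + lam m k) → HT u →
  HHd (20 * δ) u

/-- GAPd (the proof of GAP gives this: choose `s` with `(1+ε) P⁻¹ τ_s < (ε - η) / 2`) -/
def S_GAPd : Prop := S_SIEVE → S_PROD → S_TUP → ∀ (u : ℕ → ℕ) (ε η : ℝ), 0 < η → η < ε →
  StrictMono u → (∀ i, 2 ≤ u i) → (∀ i j, i ≠ j → Nat.Coprime (u i) (u j)) →
  Summable (fun n => 1 / (u n : ℝ)) → HT u → HB u → HHd η u → Gap ε u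

/-- GROWd (compare GROW, `Pool/Agent/E8helper94/GS/GROW.lean`): `m k = ⌊4^(δ k)⌋` for large `k` and
`0` for small `k`; `N ≥ 3 / δ`. -/
def S_GROWd : Prop := S_PR → ∀ δ : ℝ, 0 < δ → δ ≤ 1 / 100 →
  ∃ (m : ℕ → ℕ) (N : ℕ), (∀ k, 2 * m k ≤ (Cb k).card) ∧ Subd δ m ∧ Lo m ∧
    ∀ᶠ k : ℕ in atTop, ∀ n : ℕ, Ms m k ≤ n → (4 : ℝ) ^ (k + 1) ≤ (n : ℝ) ^ N

end Pool.Agent.E8helper11.GS
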